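import Mathlib

/-!
# Definitions for MP_c4a8f9_gt

Selective (sequential) pseudocompactness, the topological group `C_p(X, G)`, and `G`-equivalence.
-/

set_option autoImplicit false

open Filter Topology Set

namespace Pool.Agent.Work.MP_c4a8f9_gt

universe u v w

/-- A space `X` is selectively sequentially pseudocompact: for every sequence `(U n)` of non-empty
open subsets of `X` one can pick points `x n ∈ U n` such that the sequence `(x n)` has a convergent
subsequence. -/
def SelSeqPseudocompact (X : Type u) [TopologicalSpace X] : Prop :=
  ∀ U : ℕ → Set X, (∀ n, IsOpen (U n)) → (∀ n, (U n).Nonempty) →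
    ∃ x : ℕ → X, (∀ n, x n ∈ U n) ∧
      ∃ φ : ℕ → ℕ, StrictMono φ ∧ ∃ y : X, Tendsto (fun n => x (φ n)) atTop (𝓝 y)

/-- A space `X` is selectively pseudocompact: for every sequence `(U n)` of pairwise disjoint
non-empty open subsets of `X` one can pick points `x n ∈ U n` such that the set
`{x n : n ∈ ℕ}` is not closed in `X`. -/
def SelPseudocompact (X : Type u) [TopologicalSpace X] : Prop :=
  ∀ U : ℕ → Set X, (∀ n, IsOpen (U n)) → (∀ n, (U n).Nonempty) →
    (∀ m n, m ≠ n → Disjoint (U m) (U n)) →
    ∃ x : ℕ → X, (∀ n, x n ∈ U n) ∧ ¬ IsClosed (Set.range x)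

/-- The topological group `C_p(X, G)` of all continuous maps `X → G`, as a subgroup of the product
`G ^ X` (pointwise operations); it carries the subspace topology of the product topology, that is,
the topology of pointwise convergence. -/
def Cp (X : Type u) (G : Type v) [TopologicalSpace X] [Group G] [TopologicalSpace G]
    [IsTopologicalGroup G] : Subgroup (X → G) where
  carrier := {f | Continuous f}
  mul_mem' := fun hf hg => Continuous.mul hf hg
  one_mem' := continuous_const
  inv_mem' := fun hf => Continuous.inv hf

/-- Two spaces `X`, `Y` are `G`-equivalent if the topological groups `C_p(X, G)` and `C_p(Y, G)`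
are topologically isomorphic. -/
def GEquivalent (G : Type w) [Group G] [TopologicalSpace G] [IsTopologicalGroup G]
    (X : Type u) (Y : Type v) [TopologicalSpace X] [TopologicalSpace Y] : Prop :=
  Nonempty (Cp X G ≃ₜ* Cp Y G)

end Pool.Agent.Work.MP_c4a8f9_gt
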