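import Pool.Agent.Work.MP_c4a8f9_gt.Glue

/-!
# The equivalence of the groups of continuous functions
-/

set_option autoImplicit false
set_option linter.unusedSectionVars false

open Filter Topology Set OnePoint

namespace Pool.Agent.Work.MP_c4a8f9_gt

universe u v w

variable {K : Type u} [TopologicalSpace K] (A : ℕ → Set K)

/-- Sequences of nonempty relatively open subsets of the `A n` accumulate in `K`. -/
def Accumulates : Prop :=
  ∀ N : Set ℕ, N.Infinite → ∀ V : ℕ → Set K, (∀ n, IsOpen (V n)) →
    (∀ n ∈ N, (V n ∩ A n).Nonempty) →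
    ∃ q : K, ∀ W ∈ 𝓝 q, {n | n ∈ N ∧ (V n ∩ A n ∩ W).Nonempty}.Infinite

variable {A}
variable {G : Type v} [CommGroup G] [TopologicalSpace G] [IsTopologicalGroup G]

/-- the map in one direction on functions -/
def fwdFun (F : K ⊕ OnePoint (Σ n, A n) → G) : Glue A ⊕ Unit → G
  | Sum.inl x => F (Sum.inl (Glue.pr A x)) * F (Sum.inr (Glue.collapse A x)) / F (Sum.inr ∞)
  | Sum.inr _ => F (Sum.inr ∞)

/-- the map in the other direction on functions -/
def bwdFun (F : Glue A ⊕ Unit → G) : K ⊕ OnePoint (Σ n, A n) → G
  | Sum.inl k => F (Sum.inl (Glue.base k))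
  | Sum.inr z => OnePoint.elim z (F (Sum.inr ()))
      (fun z : Σ n, A n => F (Sum.inl (Glue.copy z)) / F (Sum.inl (Glue.base z.2.1)) *
        F (Sum.inr ()))

lemma continuous_fwdFun {F : K ⊕ OnePoint (Σ n, A n) → G} (hF : Continuous F) :
    Continuous (fwdFun F) := by
  rw [continuous_sum_dom]
  constructor
  · show Continuous fun x => F (Sum.inl (Glue.pr A x)) * F (Sum.inr (Glue.collapse A x)) /
      F (Sum.inr ∞)
    have h1 : Continuous fun x => F (Sum.inl (Glue.pr A x)) :=
      hF.comp (continuous_inl.comp (Glue.continuous_pr A))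
    have h2 : Continuous fun x => F (Sum.inr (Glue.collapse A x)) :=
      hF.comp (continuous_inr.comp (Glue.continuous_collapse A))
    exact (h1.mul h2).div' continuous_const
  · exact continuous_const

lemma continuous_bwdFun (hc : ∀ n, IsCompact (A n)) (hA : Accumulates A)
    {F : Glue A ⊕ Unit → G} (hF : Continuous F) : Continuous (bwdFun F) := by
  rw [continuous_sum_dom]
  constructor
  · exact hF.comp (continuous_inl.comp (Glue.continuous_base A))
  · -- the function `g` on the glued space which is trivial on `K`
    set g : Glue A → G := fun x => F (Sum.inl x) / F (Sum.inl (Glue.base (Glue.pr A x))) with hg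
    have hgc : Continuous g := by
      refine Continuous.div' (hF.comp continuous_inl) ?_
      exact hF.comp (continuous_inl.comp ((Glue.continuous_base A).comp (Glue.continuous_pr A)))
    have hbase : ∀ k : K, g (Glue.base k) = 1 := by
      intro k
      simp [hg]
    have hsig : Continuous fun z : Σ n, A n => g (Glue.copy z) * F (Sum.inr ()) :=
      (hgc.comp (Glue.continuous_copy A)).mul continuous_const
    rw [continuous_iff_continuousAt]
    intro z
    induction z using OnePoint.rec with
    | coe z =>
      rw [OnePoint.continuousAt_coe]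
      exact hsig.continuousAt
    | infty =>
      rw [OnePoint.continuousAt_infty']
      show Tendsto (fun z : Σ n, A n => g (Glue.copy z) * F (Sum.inr ())) (coclosedCompact _)
        (𝓝 (F (Sum.inr ())))
      have key : Tendsto (fun z : Σ n, A n => g (Glue.copy z)) (coclosedCompact _) (𝓝 1) := by
        intro O hO
        -- closed neighbourhood inside `O`
        obtain ⟨O', hO', hO'c, hO'O⟩ := exists_mem_nhds_isClosed_subset hO
        set N : Set ℕ := {n | ∃ a : A n, g (Glue.copy ⟨n, a⟩) ∉ O'} with hN
        have hNfin : N.Finite := by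
          by_contra hinf
          have hinf : N.Infinite := hinf
          -- open sets
          have hVex : ∀ n, ∃ V : Set K, IsOpen V ∧
              (fun a : A n => g (Glue.copy ⟨n, a⟩)) ⁻¹' O'ᶜ = Subtype.val ⁻¹' V := by
            intro n
            have hcont : Continuous (fun a : A n => g (Glue.copy ⟨n, a⟩)) :=
              hgc.comp ((Glue.continuous_copy A).comp continuous_sigmaMk)
            have hop : IsOpen ((fun a : A n => g (Glue.copy ⟨n, a⟩)) ⁻¹' O'ᶜ) :=
              hO'c.isOpen_compl.preimage hcont
            obtain ⟨V, hV, hVe⟩ := isOpen_induced_iff.1 hop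
            exact ⟨V, hV, hVe.symm⟩
          choose V hV hVe using hVex
          obtain ⟨q, hq⟩ := hA N hinf V hV (by
            rintro n ⟨a, ha⟩
            refine ⟨a.1, ?_, a.2⟩
            have : a ∈ (fun a : A n => g (Glue.copy ⟨n, a⟩)) ⁻¹' O'ᶜ := ha
            rw [hVe n] at this
            exact this)
          have h1 : g ⁻¹' O' ∈ 𝓝 (Glue.base q : Glue A) := by
            apply hgc.continuousAt.preimage_mem_nhds
            rw [hbase q]
            exact hO'
          obtain ⟨W, hW, E, hE⟩ := Glue.exists_nhds_base A q h1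
          have h2 := hq W hW
          obtain ⟨n, ⟨hn1, b, ⟨hb1, hb2⟩, hb3⟩, hn2⟩ := h2.exists_notMem_finset E
          have h3 : (Glue.copy ⟨n, ⟨b, hb2⟩⟩ : Glue A) ∈ g ⁻¹' O' := by
            apply hE
            · exact hb3
            · intro m hm
              by_contra hmm
              rw [Bool.not_eq_false] at hmm
              have := (Glue.level_iff_copy A m ⟨n, ⟨b, hb2⟩⟩).1 hmm
              simp only at this
              rw [this] at hm
              exact hn2 hm
          have h4 : (⟨b, hb2⟩ : A n) ∈ (fun a : A n => g (Glue.copy ⟨n, a⟩)) ⁻¹' O'ᶜ := by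
            rw [hVe n]
            exact hb1
          exact h4 h3
        rw [mem_map, mem_coclosedCompact_iff]
        have hsub : ((fun z : Σ n, A n => g (Glue.copy z)) ⁻¹' O)ᶜ ⊆
            ⋃ n ∈ hNfin.toFinset, (Sigma.mk n '' (univ : Set (A n))) := by
          rintro ⟨n, a⟩ hz
          simp only [mem_iUnion]
          refine ⟨n, ?_, a, mem_univ _, rfl⟩
          rw [Set.Finite.mem_toFinset]
          exact ⟨a, fun h => hz (hO'O h)⟩
        have hcomp : IsCompact (⋃ n ∈ hNfin.toFinset, (Sigma.mk n '' (univ : Set (A n)))) := by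
          apply Finset.isCompact_biUnion
          intro n _
          have : CompactSpace (A n) := isCompact_iff_compactSpace.1 (hc n)
          exact isCompact_univ.image continuous_sigmaMk
        have hclosed : IsClosed (⋃ n ∈ hNfin.toFinset, (Sigma.mk n '' (univ : Set (A n)))) := by
          apply Set.Finite.isClosed_biUnion (Finset.finite_toSet _)
          intro n _
          rw [image_univ]
          exact isClosed_range_sigmaMk
        exact hcomp.of_isClosed_subset isClosed_closure (closure_minimal hsub hclosed)
      have := key.mul (tendsto_const_nhds (x := F (Sum.inr ())))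
      simpa using this

lemma bwd_fwd (F : K ⊕ OnePoint (Σ n, A n) → G) : bwdFun (fwdFun F) = F := by
  funext x
  match x with
  | Sum.inl k =>
    show F (Sum.inl k) * F (Sum.inr ∞) / F (Sum.inr ∞) = F (Sum.inl k)
    simp
  | Sum.inr z =>
    induction z using OnePoint.rec with
    | infty => rfl
    | coe z =>
      show (F (Sum.inl z.2.1) * F (Sum.inr (z : OnePoint (Σ n, A n))) / F (Sum.inr ∞)) /
        (F (Sum.inl z.2.1) * F (Sum.inr ∞) / F (Sum.inr ∞)) * F (Sum.inr ∞) = _
      rw [mul_div_cancel_right]
      have e : ∀ a b c : G, a * b / c / a * c = b := by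
        intro a b c
        rw [mul_div_assoc, mul_div_cancel_left, div_mul_cancel]
      exact e _ _ _

lemma fwd_bwd (F : Glue A ⊕ Unit → G) : fwdFun (bwdFun F) = F := by
  funext x
  match x with
  | Sum.inr _ => rfl
  | Sum.inl (Glue.base k) =>
    show F (Sum.inl (Glue.base k)) * F (Sum.inr ()) / F (Sum.inr ()) = _
    simp
  | Sum.inl (Glue.copy z) =>
    show F (Sum.inl (Glue.base z.2.1)) * (F (Sum.inl (Glue.copy z)) /
      F (Sum.inl (Glue.base z.2.1)) * F (Sum.inr ())) / F (Sum.inr ()) = F (Sum.inl (Glue.copy z))
    rw [← mul_assoc, mul_div_cancel_right, mul_div_cancel]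

/-- The topological isomorphism. -/
theorem gEquivalent_glue (hc : ∀ n, IsCompact (A n)) (hA : Accumulates A) :
    GEquivalent G (K ⊕ OnePoint (Σ n, A n)) (Glue A ⊕ Unit) := by
  refine ⟨?_⟩
  refine
    { toFun := fun F => ⟨fwdFun F.1, continuous_fwdFun F.2⟩
      invFun := fun F => ⟨bwdFun F.1, continuous_bwdFun hc hA F.2⟩
      left_inv := fun F => Subtype.ext (bwd_fwd F.1)
      right_inv := fun F => Subtype.ext (fwd_bwd F.1)
      map_mul' := ?_
      continuous_toFun := ?_
      continuous_invFun := ?_ }
  · intro F F'
    apply Subtype.ext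
    funext x
    match x with
    | Sum.inr _ => rfl
    | Sum.inl x =>
      show F.1 _ * F'.1 _ * (F.1 _ * F'.1 _) / (F.1 _ * F'.1 _) =
        (F.1 _ * F.1 _ / F.1 _) * (F'.1 _ * F'.1 _ / F'.1 _)
      rw [mul_mul_mul_comm, mul_div_mul_comm]
  · refine Continuous.subtype_mk ?_ _
    rw [continuous_pi_iff]
    intro x
    have hev : ∀ y, Continuous fun F : Cp (K ⊕ OnePoint (Σ n, A n)) G => F.1 y := fun y =>
      (continuous_apply y).comp continuous_subtype_val
    match x with
    | Sum.inr _ => exact hev _
    | Sum.inl x => exact ((hev _).mul (hev _)).div' (hev _)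
  · refine Continuous.subtype_mk ?_ _
    rw [continuous_pi_iff]
    intro x
    have hev : ∀ y, Continuous fun F : Cp (Glue A ⊕ Unit) G => F.1 y := fun y =>
      (continuous_apply y).comp continuous_subtype_val
    match x with
    | Sum.inl x => exact hev _
    | Sum.inr z =>
      induction z using OnePoint.rec with
      | infty => exact hev _
      | coe z => exact ((hev _).div' (hev _)).mul (hev _)

end Pool.Agent.Work.MP_c4a8f9_gt
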