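import Pool.Agent.Work.MP_c4a8f9_gt.Defs

/-!
# The glued space

For a space `K` and subsets `A n ⊆ K`, `Glue A` is the subspace
`K × {0} ∪ ⋃ n, A n × {δ n}` of `K × (ℕ → Bool)`, where `δ n` is the indicator function of `n`.
-/

set_option autoImplicit false
set_option linter.unusedSectionVars false

open Filter Topology Set OnePoint

namespace Pool.Agent.Work.MP_c4a8f9_gt

universe u v w

variable {K : Type u} [TopologicalSpace K]

/-- underlying type of the glued space. -/
inductive Glue (A : ℕ → Set K) : Type u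
  | base (k : K) : Glue A
  | copy (z : Σ n, A n) : Glue A

/-- indicator of `n`. -/
def delta (n : ℕ) : ℕ → Bool := fun m => decide (m = n)

/-- the embedding in `K × 2 ^ ℕ`. -/
def Glue.emb (A : ℕ → Set K) : Glue A → K × (ℕ → Bool)
  | Glue.base k => (k, fun _ => false)
  | Glue.copy z => (z.2.1, delta z.1)

instance (A : ℕ → Set K) : TopologicalSpace (Glue A) :=
  TopologicalSpace.induced (Glue.emb A) inferInstance

variable (A : ℕ → Set K)

lemma Glue.emb_base (k : K) : Glue.emb A (Glue.base k) = (k, fun _ => false) := rfl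

lemma Glue.emb_copy (z : Σ n, A n) : Glue.emb A (Glue.copy z) = (z.2.1, delta z.1) := rfl

lemma delta_ne (n : ℕ) : (delta n) ≠ fun _ => false := by
  intro h
  have := congrFun h n
  simp [delta] at this

lemma delta_inj {m n : ℕ} (h : delta m = delta n) : m = n := by
  have := congrFun h m
  simpa [delta] using this

lemma Glue.emb_injective : Function.Injective (Glue.emb A) := by
  intro x y h
  match x, y with
  | Glue.base k, Glue.base l =>
    have : k = l := congrArg Prod.fst h
    rw [this]
  | Glue.base k, Glue.copy z =>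
    exact absurd (congrArg Prod.snd h).symm (delta_ne _)
  | Glue.copy z, Glue.base k =>
    exact absurd (congrArg Prod.snd h) (delta_ne _)
  | Glue.copy ⟨m, a⟩, Glue.copy ⟨n, b⟩ =>
    have h1 : m = n := delta_inj (congrArg Prod.snd h)
    subst h1
    have h2 : a.1 = b.1 := congrArg Prod.fst h
    have h3 : a = b := Subtype.ext h2
    rw [h3]

lemma Glue.isEmbedding : IsEmbedding (Glue.emb A) where
  toIsInducing := ⟨rfl⟩
  injective := Glue.emb_injective A

lemma Glue.continuous_emb : Continuous (Glue.emb A) := continuous_induced_dom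

/-- projection to `K`. -/
def Glue.pr (x : Glue A) : K := (Glue.emb A x).1

lemma Glue.continuous_pr : Continuous (Glue.pr A) :=
  continuous_fst.comp (Glue.continuous_emb A)

@[simp] lemma Glue.pr_base (k : K) : Glue.pr A (Glue.base k) = k := rfl
@[simp] lemma Glue.pr_copy (z : Σ n, A n) : Glue.pr A (Glue.copy z) = z.2.1 := rfl

lemma Glue.continuous_base : Continuous (Glue.base : K → Glue A) := by
  rw [continuous_induced_rng]
  exact Continuous.prodMk continuous_id continuous_const

lemma Glue.continuous_copy : Continuous (Glue.copy : (Σ n, A n) → Glue A) := by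
  rw [continuous_induced_rng]
  refine Continuous.prodMk ?_ ?_
  · exact continuous_sigma fun n => continuous_subtype_val
  · exact continuous_sigma fun n => (continuous_const : Continuous fun _ : A n => delta n)

/-- the set of points of the `n`-th copy is open. -/
lemma Glue.isOpen_level (n : ℕ) : IsOpen {x : Glue A | (Glue.emb A x).2 n = true} := by
  have h : Continuous fun x : Glue A => (Glue.emb A x).2 n :=
    (continuous_apply n).comp (continuous_snd.comp (Glue.continuous_emb A))
  exact (isOpen_discrete {true}).preimage h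

lemma Glue.isOpen_level_false (n : ℕ) : IsOpen {x : Glue A | (Glue.emb A x).2 n = false} := by
  have h : Continuous fun x : Glue A => (Glue.emb A x).2 n :=
    (continuous_apply n).comp (continuous_snd.comp (Glue.continuous_emb A))
  exact (isOpen_discrete {false}).preimage h

lemma Glue.level_iff_copy (n : ℕ) (z : Σ n, A n) :
    (Glue.emb A (Glue.copy z)).2 n = true ↔ n = z.1 := by
  rw [Glue.emb_copy]; simp [delta]

/-- The inclusion of the copies is an open embedding. -/
lemma Glue.isOpenEmbedding_copy : IsOpenEmbedding (Glue.copy : (Σ n, A n) → Glue A) := by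
  refine IsOpenEmbedding.of_continuous_injective_isOpenMap (Glue.continuous_copy A) ?_ ?_
  · intro x y h
    exact Glue.copy.inj h
  · rw [isOpenMap_sigma]
    intro n U hU
    rw [isOpen_induced_iff] at hU
    obtain ⟨V, hV, rfl⟩ := hU
    have : (fun a : A n => (Glue.copy ⟨n, a⟩ : Glue A)) '' (Subtype.val ⁻¹' V)
        = {x : Glue A | (Glue.emb A x).2 n = true} ∩ (Glue.pr A) ⁻¹' V := by
      ext x
      constructor
      · rintro ⟨a, ha, rfl⟩
        refine ⟨?_, ha⟩
        exact (Glue.level_iff_copy A n ⟨n, a⟩).2 rfl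
      · rintro ⟨h1, h2⟩
        match x, h1, h2 with
        | Glue.base k, h1, h2 =>
          exact absurd h1 (by show ¬ (false = true); simp)
        | Glue.copy ⟨m, b⟩, h1, h2 =>
          have h3 : n = m := (Glue.level_iff_copy A n ⟨m, b⟩).1 h1
          subst h3
          exact ⟨b, h2, rfl⟩
    rw [this]
    exact (Glue.isOpen_level A n).inter (hV.preimage (Glue.continuous_pr A))

/-- basic neighbourhoods of base points. -/
lemma Glue.nhds_base (k : K) {W : Set K} (hW : W ∈ 𝓝 k) (F : Finset ℕ) :
    {x : Glue A | Glue.pr A x ∈ W ∧ ∀ n ∈ F, (Glue.emb A x).2 n = false}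
      ∈ 𝓝 (Glue.base k : Glue A) := by
  have h1 : {x : Glue A | Glue.pr A x ∈ W} ∈ 𝓝 (Glue.base k : Glue A) :=
    (Glue.continuous_pr A).continuousAt.preimage_mem_nhds (by simpa using hW)
  have h2 : {x : Glue A | ∀ n ∈ F, (Glue.emb A x).2 n = false} ∈ 𝓝 (Glue.base k : Glue A) := by
    have : {x : Glue A | ∀ n ∈ F, (Glue.emb A x).2 n = false}
        = ⋂ n ∈ F, {x : Glue A | (Glue.emb A x).2 n = false} := by ext; simp
    rw [this]
    rw [Filter.biInter_finset_mem]
    intro n hn
    exact (Glue.isOpen_level_false A n).mem_nhds rfl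
  exact Filter.inter_mem h1 h2

/-- neighbourhoods of base points contain basic ones. -/
lemma Glue.exists_nhds_base (k : K) {S : Set (Glue A)} (hS : S ∈ 𝓝 (Glue.base k : Glue A)) :
    ∃ W ∈ 𝓝 k, ∃ F : Finset ℕ, ∀ x : Glue A, Glue.pr A x ∈ W →
      (∀ n ∈ F, (Glue.emb A x).2 n = false) → x ∈ S := by
  rw [nhds_induced, mem_comap] at hS
  obtain ⟨T, hT, hTS⟩ := hS
  rw [Glue.emb_base, nhds_prod_eq, mem_prod_iff] at hT
  obtain ⟨W, hW, V, hV, hWV⟩ := hT
  rw [nhds_pi, Filter.mem_pi] at hV
  obtain ⟨I, hI, t, ht, htV⟩ := hV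
  refine ⟨W, hW, hI.toFinset, fun x hx1 hx2 => ?_⟩
  apply hTS
  apply hWV
  refine ⟨hx1, htV ?_⟩
  intro i hi
  have h1 : (Glue.emb A x).2 i = false := hx2 i (hI.mem_toFinset.2 hi)
  rw [h1]
  exact mem_of_mem_nhds (ht i)

/-- The quotient map collapsing `K` to a point. -/
def Glue.collapse : Glue A → OnePoint (Σ n, A n)
  | Glue.base _ => ∞
  | Glue.copy z => (z : OnePoint (Σ n, A n))

@[simp] lemma Glue.collapse_base (k : K) : Glue.collapse A (Glue.base k) = ∞ := rfl
@[simp] lemma Glue.collapse_copy (z : Σ n, A n) :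
    Glue.collapse A (Glue.copy z) = (z : OnePoint (Σ n, A n)) := rfl

lemma compact_sigma_bounded {C : Set (Σ n, A n)} (hC : IsCompact C) :
    ∃ F : Finset ℕ, ∀ z ∈ C, z.1 ∈ F := by
  have h1 : Continuous (fun z : Σ n, A n => z.1) :=
    continuous_sigma fun n => (continuous_const : Continuous fun _ : A n => n)
  have h2 := (hC.image h1).finite_of_discrete
  refine ⟨h2.toFinset, fun z hz => ?_⟩
  rw [Set.Finite.mem_toFinset]
  exact ⟨z, hz, rfl⟩

lemma Glue.continuous_collapse : Continuous (Glue.collapse A) := by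
  rw [continuous_iff_continuousAt]
  intro x
  match x with
  | Glue.copy z =>
    have h1 : 𝓝 (Glue.copy z : Glue A) = map (Glue.copy) (𝓝 z) :=
      ((Glue.isOpenEmbedding_copy A).map_nhds_eq z).symm
    show Tendsto (Glue.collapse A) (𝓝 (Glue.copy z : Glue A)) _
    rw [h1, tendsto_map'_iff]
    exact OnePoint.continuous_coe.continuousAt
  | Glue.base k =>
    show Tendsto (Glue.collapse A) (𝓝 (Glue.base k)) (𝓝 ∞)
    rw [OnePoint.nhds_infty_eq]
    intro S hS
    rw [mem_sup, mem_map, mem_pure, mem_coclosedCompact_iff] at hS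
    obtain ⟨hS1, hS2⟩ := hS
    obtain ⟨F, hF⟩ := compact_sigma_bounded A hS1
    rw [mem_map]
    refine mem_of_superset (Glue.nhds_base A k univ_mem F) ?_
    rintro y ⟨-, hy⟩
    match y, hy with
    | Glue.base l, hy => exact hS2
    | Glue.copy w, hy =>
      show (w : OnePoint (Σ n, A n)) ∈ S
      by_contra hw
      have h2 := hF w (subset_closure hw)
      have h3 := hy _ h2
      have h4 : (Glue.emb A (Glue.copy w)).2 w.1 = true := (Glue.level_iff_copy A _ _).2 rfl
      rw [h4] at h3
      exact absurd h3 (by simp)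

end Pool.Agent.Work.MP_c4a8f9_gt
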