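import Pool.Agent.Work.MP_c4a8f9_gt.Sep

/-!
# Selective sequential pseudocompactness is not preserved
-/

set_option autoImplicit false
set_option linter.unusedSectionVars false

open Filter Topology Set OnePoint

namespace Pool.Agent.Work.MP_c4a8f9_gt

universe u v w

/-- the compact space `2 ^ (2 ^ ω)`. -/
abbrev Kone : Type := (ℕ → Bool) → Bool

/-- the evaluations. -/
def kone (n : ℕ) : Kone := fun x => x n

/-- singletons of evaluations. -/
def Aone (n : ℕ) : Set Kone := {kone n}

lemma isCompact_Aone (n : ℕ) : IsCompact (Aone n) := isCompact_singleton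

lemma accumulates_Aone : Accumulates Aone := by
  intro N hN V hV hne
  obtain ⟨ψ, hψ, hψN⟩ := extraction_of_frequently_atTop (Nat.frequently_atTop_iff_infinite.2 hN)
  obtain ⟨q, hq⟩ := exists_clusterPt_of_compactSpace (map (fun i => kone (ψ i)) atTop)
  refine ⟨q, fun W hW => ?_⟩
  have h1 : ∃ᶠ i in atTop, kone (ψ i) ∈ W := (mapClusterPt_iff_frequently.1 hq) W hW
  have h2 : {i | kone (ψ i) ∈ W}.Infinite := Nat.frequently_atTop_iff_infinite.1 h1
  have h3 : (ψ '' {i | kone (ψ i) ∈ W}).Infinite := h2.image hψ.injective.injOn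
  refine h3.mono ?_
  rintro _ ⟨i, hi, rfl⟩
  refine ⟨hψN i, kone (ψ i), ⟨?_, rfl⟩, hi⟩
  obtain ⟨a, ha1, ha2⟩ := hne (ψ i) (hψN i)
  rw [show a = kone (ψ i) from ha2] at ha1
  exact ha1

lemma isSeqCompact_onePoint (z : ℕ → OnePoint (Σ n, Aone n)) :
    ∃ φ : ℕ → ℕ, StrictMono φ ∧ ∃ y, Tendsto (fun n => z (φ n)) atTop (𝓝 y) := by
  by_cases h : ∃ y, ∃ᶠ n in atTop, z n = y
  · obtain ⟨y, hy⟩ := h
    obtain ⟨φ, hφ, hφy⟩ := extraction_of_frequently_atTop hy
    refine ⟨φ, hφ, y, ?_⟩
    simp only [hφy]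
    exact tendsto_const_nhds
  · refine ⟨id, strictMono_id, ∞, ?_⟩
    push Not at h
    show Tendsto z atTop (𝓝 ∞)
    intro S hS
    rw [OnePoint.nhds_infty_eq, mem_sup, mem_map, mem_pure, mem_coclosedCompact_iff] at hS
    obtain ⟨hS1, hS2⟩ := hS
    have hsub : ∀ n, Subsingleton (Aone n) := fun n => by
      show Subsingleton ({kone n} : Set Kone)
      infer_instance
    have hd : ∀ n, DiscreteTopology (Aone n) := fun n => by
      have := hsub n
      infer_instance
    have hfin : (((fun z : Σ n, Aone n => (z : OnePoint (Σ n, Aone n))) ⁻¹' S)ᶜ).Finite :=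
      (hS1.finite_of_discrete).subset subset_closure
    have hfin2 : (Sᶜ).Finite := by
      refine (hfin.image (fun z : Σ n, Aone n => (z : OnePoint (Σ n, Aone n)))).subset ?_
      intro x hx
      induction x using OnePoint.rec with
      | infty => exact absurd hS2 hx
      | coe x => exact ⟨x, hx, rfl⟩
    have h2 : ∀ᶠ n in atTop, ∀ y ∈ Sᶜ, z n ≠ y := by
      rw [hfin2.eventually_all]
      intro y _
      exact (h y)
    rw [mem_map]
    filter_upwards [h2] with n hn
    by_contra hc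
    exact hn _ hc rfl

lemma exists_point_of_isOpen (V : Set Kone) (hV : IsOpen V) (hne : V.Nonempty) :
    ∃ (u : Kone) (I : Finset (ℕ → Bool)), ∀ x : Kone, (∀ i ∈ I, x i = u i) → x ∈ V := by
  obtain ⟨u, hu⟩ := hne
  obtain ⟨I, t, ht, hIt⟩ := isOpen_pi_iff.1 hV u hu
  refine ⟨u, I, fun x hx => hIt ?_⟩
  intro i hi
  rw [hx i hi]
  exact (ht i hi).2

theorem ssp_X1 : SelSeqPseudocompact (Kone ⊕ OnePoint (Σ n, Aone n)) := by
  classical
  intro U hU hne
  -- choose supports
  have h1 : ∀ n, ∃ (u : Kone) (I : Finset (ℕ → Bool)),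
      (∃ k, (Sum.inl k : Kone ⊕ OnePoint (Σ n, Aone n)) ∈ U n) →
      ∀ x : Kone, (∀ i ∈ I, x i = u i) → (Sum.inl x : Kone ⊕ OnePoint (Σ n, Aone n)) ∈ U n := by
    intro n
    by_cases h : ∃ k, (Sum.inl k : Kone ⊕ OnePoint (Σ n, Aone n)) ∈ U n
    · obtain ⟨u, I, h'⟩ := exists_point_of_isOpen (Sum.inl ⁻¹' U n)
        ((hU n).preimage continuous_inl) h
      exact ⟨u, I, fun _ => h'⟩
    · exact ⟨fun _ => false, ∅, fun h' => absurd h' h⟩
  choose u I hI using h1
  set S : Set (ℕ → Bool) := ⋃ n, (I n : Set (ℕ → Bool)) with hS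
  have hSc : S.Countable := countable_iUnion fun n => (I n).countable_toSet
  set xK : ℕ → Kone := fun n i => if i ∈ S then u n i else false with hxK
  have hxU : ∀ n, (∃ k, (Sum.inl k : Kone ⊕ OnePoint (Σ n, Aone n)) ∈ U n) →
      (Sum.inl (xK n) : Kone ⊕ OnePoint (Σ n, Aone n)) ∈ U n := by
    intro n hn
    apply hI n hn
    intro i hi
    have : i ∈ S := mem_iUnion.2 ⟨n, hi⟩
    simp [hxK, this]
  have h2 : ∀ n, ∃ z : OnePoint (Σ n, Aone n),
      (¬ ∃ k, (Sum.inl k : Kone ⊕ OnePoint (Σ n, Aone n)) ∈ U n) → Sum.inr z ∈ U n := by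
    intro n
    by_cases h : ∃ k, (Sum.inl k : Kone ⊕ OnePoint (Σ n, Aone n)) ∈ U n
    · exact ⟨∞, fun h' => absurd h h'⟩
    · obtain ⟨y, hy⟩ := hne n
      match y, hy with
      | Sum.inl k, hy => exact absurd ⟨k, hy⟩ h
      | Sum.inr z, hy => exact ⟨z, fun _ => hy⟩
  choose z hz using h2
  set x : ℕ → Kone ⊕ OnePoint (Σ n, Aone n) := fun n =>
    if (∃ k, (Sum.inl k : Kone ⊕ OnePoint (Σ n, Aone n)) ∈ U n) then Sum.inl (xK n)
    else Sum.inr (z n) with hx
  refine ⟨x, ?_, ?_⟩
  · intro n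
    by_cases h : ∃ k, (Sum.inl k : Kone ⊕ OnePoint (Σ n, Aone n)) ∈ U n
    · simp only [hx, if_pos h]
      exact hxU n h
    · simp only [hx, if_neg h]
      exact hz n h
  · by_cases hfreq : ∃ᶠ n in atTop, ∃ k, (Sum.inl k : Kone ⊕ OnePoint (Σ n, Aone n)) ∈ U n
    · obtain ⟨ψ, hψ, hψU⟩ := extraction_of_frequently_atTop hfreq
      -- sequential compactness of `2 ^ S`
      have : Countable S := hSc.to_subtype
      obtain ⟨y, φ, hφ, hy⟩ :=
        SeqCompactSpace.tendsto_subseq (fun n : ℕ => fun i : S => xK (ψ n) i)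
      refine ⟨fun n => ψ (φ n), hψ.comp hφ, Sum.inl (fun i => if h : i ∈ S then y ⟨i, h⟩ else false),
        ?_⟩
      have h3 : ∀ n, x (ψ (φ n)) = Sum.inl (xK (ψ (φ n))) := fun n => by
        simp only [hx, if_pos (hψU (φ n))]
      simp only [h3]
      refine (continuous_inl.tendsto _).comp ?_
      rw [tendsto_pi_nhds]
      intro i
      by_cases hi : i ∈ S
      · have h4 := (tendsto_pi_nhds.1 hy) ⟨i, hi⟩
        simp only [hi, dif_pos]
        exact h4
      · simp only [hi, dif_neg, not_false_eq_true]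
        have h5 : ∀ n, xK (ψ (φ n)) i = false := fun n => by simp [hxK, hi]
        simp only [h5]
        exact tendsto_const_nhds
    · have hfreq' : ∃ᶠ n in atTop,
          ¬ ∃ k, (Sum.inl k : Kone ⊕ OnePoint (Σ n, Aone n)) ∈ U n :=
        (not_frequently.1 hfreq).frequently
      obtain ⟨ψ, hψ, hψU⟩ := extraction_of_frequently_atTop hfreq'
      obtain ⟨φ, hφ, y, hy⟩ := isSeqCompact_onePoint (fun n => z (ψ n))
      refine ⟨fun n => ψ (φ n), hψ.comp hφ, Sum.inr y, ?_⟩
      have h3 : ∀ n, x (ψ (φ n)) = Sum.inr (z (ψ (φ n))) := fun n => by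
        simp only [hx, if_neg (hψU (φ n))]
      simp only [h3]
      exact (continuous_inr.tendsto _).comp hy

/-- no subsequence of the evaluations converges -/
lemma kone_not_tendsto (φ : ℕ → ℕ) (hφ : StrictMono φ) (y : Kone) :
    ¬ Tendsto (fun n => kone (φ n)) atTop (𝓝 y) := by
  classical
  intro h
  rw [tendsto_pi_nhds] at h
  set x : ℕ → Bool := fun m => decide (∃ n, m = φ (2 * n)) with hx
  have h1 := h x
  rw [nhds_discrete, tendsto_pure] at h1
  obtain ⟨M, hM⟩ := eventually_atTop.1 h1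
  have h2 := hM (2 * M) (by omega)
  have h3 := hM (2 * M + 1) (by omega)
  have h4 : kone (φ (2 * M)) x = true := by
    simp only [kone, hx, decide_eq_true_eq]
    exact ⟨M, rfl⟩
  have h5 : kone (φ (2 * M + 1)) x = false := by
    simp only [kone, hx, decide_eq_false_iff_not]
    rintro ⟨n, hn⟩
    have := hφ.injective hn
    omega
  rw [h4] at h2
  rw [h5] at h3
  exact absurd (h2.trans h3.symm) (by simp)

theorem not_ssp_Y1 : ¬ SelSeqPseudocompact (Glue Aone ⊕ Unit) := by
  intro h
  obtain ⟨x, hx, φ, hφ, y, hy⟩ := h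
    (fun n => Sum.inl '' (Glue.copy '' (range (Sigma.mk n) : Set (Σ n, Aone n)))) (by
      intro n
      apply isOpenMap_inl
      apply (Glue.isOpenEmbedding_copy Aone).isOpenMap
      exact isOpenMap_sigmaMk.isOpen_range) (by
      intro n
      exact ⟨_, _, ⟨_, ⟨⟨kone n, rfl⟩, rfl⟩, rfl⟩, rfl⟩)
  -- project to `K`
  set p : Glue Aone ⊕ Unit → Kone := Sum.elim (Glue.pr Aone) (fun _ => kone 0) with hp
  have hpc : Continuous p := by
    rw [continuous_sum_dom]
    exact ⟨Glue.continuous_pr Aone, continuous_const⟩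
  have h1 : ∀ n, p (x n) = kone n := by
    intro n
    obtain ⟨w, ⟨z, ⟨a, rfl⟩, rfl⟩, hw⟩ := hx n
    rw [← hw]
    show Glue.pr Aone (Glue.copy ⟨n, a⟩) = kone n
    exact a.2
  have h2 := (hpc.tendsto y).comp hy
  apply kone_not_tendsto φ hφ (p y)
  have h3 : (p ∘ fun n => x (φ n)) = fun n => kone (φ n) := by
    funext n
    exact h1 (φ n)
  rw [← h3]
  exact h2

lemma compact_glue {K : Type u} [TopologicalSpace K] [CompactSpace K] (A : ℕ → Set K)
    (hc : ∀ n, IsClosed (A n)) : CompactSpace (Glue A) := by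
  have hcl : IsClosed (range (Glue.emb A)) := by
    rw [← isOpen_compl_iff, isOpen_iff_mem_nhds]
    rintro ⟨k, x⟩ hkx
    have hx : ∃ n, x n = true := by
      by_contra h
      push Not at h
      apply hkx
      refine ⟨Glue.base k, ?_⟩
      rw [Glue.emb_base]
      have : x = fun _ => false := by
        funext n
        simpa using h n
      rw [this]
    obtain ⟨n, hn⟩ := hx
    have hopn : ∀ m, IsOpen {p : K × (ℕ → Bool) | p.2 m = true} := fun m => by
      have h : Continuous fun p : K × (ℕ → Bool) => p.2 m :=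
        (continuous_apply m).comp continuous_snd
      exact (isOpen_discrete {true}).preimage h
    by_cases hk : k ∈ A n
    · have hm : ∃ m, m ≠ n ∧ x m = true := by
        by_contra h
        push Not at h
        apply hkx
        refine ⟨Glue.copy ⟨n, ⟨k, hk⟩⟩, ?_⟩
        rw [Glue.emb_copy]
        have : x = delta n := by
          funext m
          by_cases hmn : m = n
          · subst hmn
            simp [delta, hn]
          · have := h m hmn
            simp [delta, hmn, this]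
        rw [this]
      obtain ⟨m, hmn, hm⟩ := hm
      refine mem_of_superset (((hopn n).inter (hopn m)).mem_nhds ⟨hn, hm⟩) ?_
      rintro _ ⟨h1, h2⟩ ⟨y, rfl⟩
      match y, h1, h2 with
      | Glue.base l, h1, h2 => exact absurd h1 (by rw [Glue.emb_base]; simp)
      | Glue.copy z, h1, h2 =>
        have e1 := (Glue.level_iff_copy A n z).1 h1
        have e2 := (Glue.level_iff_copy A m z).1 h2
        exact hmn (e2.trans e1.symm)
    · have ho : IsOpen {p : K × (ℕ → Bool) | p.1 ∉ A n} :=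
        (hc n).isOpen_compl.preimage continuous_fst
      refine mem_of_superset (((hopn n).inter ho).mem_nhds ⟨hn, hk⟩) ?_
      rintro _ ⟨h1, h2⟩ ⟨y, rfl⟩
      match y, h1, h2 with
      | Glue.base l, h1, h2 => exact absurd h1 (by rw [Glue.emb_base]; simp)
      | Glue.copy ⟨m, a⟩, h1, h2 =>
        have e1 : n = m := (Glue.level_iff_copy A n ⟨m, a⟩).1 h1
        subst e1
        exact h2 a.2
  have hce : IsClosedEmbedding (Glue.emb A) := ⟨Glue.isEmbedding A, hcl⟩
  exact hce.compactSpace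

theorem main_Q1 : ∃ (X Y : Type) (_ : TopologicalSpace X) (_ : TopologicalSpace Y),
    T35Space X ∧ T35Space Y ∧ CompactSpace X ∧ CompactSpace Y ∧
    SelSeqPseudocompact X ∧ ¬ SelSeqPseudocompact Y ∧
    ∀ (G : Type u) [CommGroup G] [TopologicalSpace G] [IsTopologicalGroup G],
      Dense (Cp X G : Set (X → G)) ∧ Dense (Cp Y G : Set (Y → G)) ∧ GEquivalent G X Y := by
  have hsepK : SepBool Kone := SepBool.pi _
  have hT : T35Space (OnePoint (Σ n, Aone n)) := t35_onePoint Aone isCompact_Aone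
  have hG : T35Space (Glue Aone) := t35_glue Aone
  have hsing : ∀ n, CompactSpace (Aone n) := fun n => isCompact_iff_compactSpace.1 (isCompact_Aone n)
  have hcl : ∀ n, IsClosed (Aone n) := fun n => isClosed_singleton
  have hcG : CompactSpace (Glue Aone) := compact_glue Aone hcl
  refine ⟨Kone ⊕ OnePoint (Σ n, Aone n), Glue Aone ⊕ Unit, inferInstance, inferInstance,
    t35_sum, t35_sum, inferInstance, inferInstance, ssp_X1, not_ssp_Y1, ?_⟩
  intro G _ _ _
  refine ⟨?_, ?_, gEquivalent_glue isCompact_Aone accumulates_Aone⟩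
  · apply SepBool.dense_Cp
    apply hsepK.sum
    apply SepBool.onePoint
    intro n
    exact hsepK.of_injective continuous_subtype_val Subtype.val_injective
  · apply SepBool.dense_Cp
    apply SepBool.sum _ SepBool.unit
    exact (hsepK.prod (SepBool.pi ℕ)).of_injective (Glue.continuous_emb Aone)
      (Glue.emb_injective Aone)

end Pool.Agent.Work.MP_c4a8f9_gt
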