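import Pool.Agent.Work.MP_c4a8f9_gt.Sep

/-!
# Selective pseudocompactness is not preserved
-/

set_option autoImplicit false
set_option linter.unusedSectionVars false

open Filter Topology Set OnePoint

namespace Pool.Agent.Work.MP_c4a8f9_gt

universe u v w

/-- the Cantor space -/
abbrev Cantor : Type := ℕ → Bool

/-- index set: sequences of clopen subsets of the Cantor space, that is, clopen subsets of
`ω × 2 ^ ω`. -/
abbrev Itwo : Type := {V : ℕ → Set Cantor // ∀ n, IsClopen (V n)}

open Classical in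
/-- the point of the cube `2 ^ I` given by a point `c` of the `n`-th copy of the Cantor space. -/
noncomputable def ztwo (n : ℕ) (c : Cantor) : Itwo → Bool := fun V => decide (c ∈ V.1 n)

/-- `x` is an accumulation point of the selection `a`. -/
def AccSel (x : Itwo → Bool) (a : ℕ → Cantor) : Prop :=
  ∀ W ∈ 𝓝 x, {n | ztwo n (a n) ∈ W}.Infinite

/-- the space `K`. -/
abbrev Ktwo : Type :=
  {p : (Itwo → Bool) × (ℝ → Bool) // (∃ j, p.2 j = true) ∨ ∀ a : ℕ → Cantor, ¬ AccSel p.1 a}

lemma ztwo_eq_true {n : ℕ} {c : Cantor} {V : Itwo} : ztwo n c V = true ↔ c ∈ V.1 n := by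
  simp [ztwo]

lemma continuous_ztwo (n : ℕ) : Continuous (ztwo n) := by
  rw [continuous_pi_iff]
  intro V
  rw [continuous_bool_rng true]
  have : (fun c => ztwo n c V) ⁻¹' {true} = V.1 n := by
    ext c
    simp [ztwo]
  rw [this]
  exact V.2 n

lemma isOpen_coord (V : Itwo) (b : Bool) : IsOpen {x : Itwo → Bool | x V = b} := by
  have h : Continuous fun x : Itwo → Bool => x V := continuous_apply V
  exact (isOpen_discrete {b}).preimage h

lemma not_accSel_ztwo (n : ℕ) (c : Cantor) (a : ℕ → Cantor) : ¬ AccSel (ztwo n c) a := by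
  classical
  intro h
  set V : Itwo := ⟨fun m => if m = n then univ else ∅, fun m => by
    by_cases hm : m = n
    · simp [hm, isClopen_univ]
    · simp [hm, isClopen_empty]⟩ with hV
  have h1 : {x : Itwo → Bool | x V = true} ∈ 𝓝 (ztwo n c) := by
    apply (isOpen_coord V true).mem_nhds
    show ztwo n c V = true
    rw [ztwo_eq_true]
    simp [hV]
  have h2 := h _ h1
  apply h2
  refine (Set.finite_singleton n).subset ?_
  intro m hm
  have h3 : ztwo m (a m) V = true := hm
  rw [ztwo_eq_true] at h3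
  by_contra hmn
  have hmn' : m ≠ n := hmn
  simp [hV, hmn'] at h3

/-- the points of the copies of the Cantor space in `K`. -/
noncomputable def zK (n : ℕ) (c : Cantor) : Ktwo :=
  ⟨(ztwo n c, fun _ => false), Or.inr fun a => not_accSel_ztwo n c a⟩

lemma continuous_zK (n : ℕ) : Continuous (zK n) := by
  apply Continuous.subtype_mk
  exact (continuous_ztwo n).prodMk continuous_const

/-- the copies of the Cantor space in `K`. -/
def Atwo (n : ℕ) : Set Ktwo := range (zK n)

lemma isCompact_Atwo (n : ℕ) : IsCompact (Atwo n) := isCompact_range (continuous_zK n)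

/-- infinitely many disjoint non-empty clopen subsets inside a nonempty open subset of the Cantor
space. -/
lemma exists_disjoint_clopens (O : Set Cantor) (hO : IsOpen O) (hne : O.Nonempty) :
    ∃ P : ℕ → Set Cantor, (∀ i, IsClopen (P i)) ∧ (∀ i, (P i).Nonempty) ∧ (∀ i, P i ⊆ O) ∧
      ∀ i j, i ≠ j → Disjoint (P i) (P j) := by
  obtain ⟨c, hc⟩ := hne
  obtain ⟨I, t, ht, hIt⟩ := isOpen_pi_iff.1 hO c hc
  obtain ⟨M, hM⟩ := I.exists_nat_subset_range
  -- `P i` is the set of all points whose first difference from `c` is at place `M + i`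
  have hcont : ∀ j : ℕ, Continuous fun x : Cantor => x j := fun j => continuous_apply j
  refine ⟨fun i => {x | (∀ j < M + i, x j = c j) ∧ x (M + i) ≠ c (M + i)}, ?_, ?_, ?_, ?_⟩
  · intro i
    have h1 : IsClopen {x : Cantor | ∀ j < M + i, x j = c j} := by
      have : {x : Cantor | ∀ j < M + i, x j = c j} =
          ⋂ j ∈ Finset.range (M + i), {x : Cantor | x j = c j} := by
        ext x; simp
      rw [this]
      apply isClopen_biInter_finset
      intro j _
      exact (isClopen_discrete {c j}).preimage (hcont j)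
    have h2 : IsClopen {x : Cantor | x (M + i) ≠ c (M + i)} :=
      (isClopen_discrete {c (M + i)}ᶜ).preimage (hcont (M + i))
    exact h1.inter h2
  · intro i
    refine ⟨Function.update c (M + i) (!c (M + i)), ?_, ?_⟩
    · intro j hj
      rw [Function.update_of_ne (by omega)]
    · simp
  · intro i x hx
    apply hIt
    intro j hj
    have hj' := hM hj
    rw [Finset.mem_range] at hj'
    rw [hx.1 j (by omega)]
    exact (ht j hj).2
  · intro i j hij
    rw [Set.disjoint_left]
    intro x hx hx'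
    rcases Nat.lt_or_gt_of_ne hij with h | h
    · exact hx.2 (hx'.1 (M + i) (by omega))
    · exact hx'.2 (hx.1 (M + j) (by omega))

theorem accumulates_Atwo : Accumulates Atwo := by
  classical
  intro N hN V hV hne
  -- open subsets of the Cantor space
  have h1 : ∀ n, ∃ P : ℕ → Set Cantor, (∀ i, IsClopen (P i)) ∧ (∀ i, (P i).Nonempty) ∧
      (n ∈ N → ∀ i, ∀ c ∈ P i, zK n c ∈ V n) ∧ ∀ i j, i ≠ j → Disjoint (P i) (P j) := by
    intro n
    by_cases hn : n ∈ N
    · obtain ⟨p, hp1, c, rfl⟩ := hne n hn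
      obtain ⟨P, hP1, hP2, hP3, hP4⟩ := exists_disjoint_clopens (zK n ⁻¹' V n)
        ((hV n).preimage (continuous_zK n)) ⟨c, hp1⟩
      exact ⟨P, hP1, hP2, fun _ i c hc => hP3 i hc, hP4⟩
    · obtain ⟨P, hP1, hP2, hP3, hP4⟩ := exists_disjoint_clopens univ isOpen_univ univ_nonempty
      exact ⟨P, hP1, hP2, fun h => absurd h hn, hP4⟩
  choose P hPclopen hPne hPV hPdisj using h1
  -- the clopen set avoiding a selection
  set Q : (ℕ → Cantor) → ℕ → Set Cantor := fun a n =>
    if n ∈ N then ⋃ i ∈ Finset.range (n + 1), (if a n ∈ P n i then ∅ else P n i) else ∅ with hQ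
  have hQclopen : ∀ a n, IsClopen (Q a n) := by
    intro a n
    simp only [hQ]
    split_ifs with hn
    · apply isClopen_biUnion_finset
      intro i _
      split_ifs
      · exact isClopen_empty
      · exact hPclopen n i
    · exact isClopen_empty
  have hQa : ∀ a n, a n ∉ Q a n := by
    intro a n
    simp only [hQ]
    split_ifs with hn
    · simp only [mem_iUnion, not_exists]
      intro i _
      split_ifs with h
      · exact id
      · exact h
    · exact id
  -- the filter base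
  set F : Finset (ℕ → Cantor) → ℕ → Set (ℕ × Cantor) := fun S m =>
    {p | p.1 ∈ N ∧ m ≤ p.1 ∧ (∃ i, p.2 ∈ P p.1 i) ∧ ∀ a ∈ S, p.2 ∈ Q a p.1} with hF
  have hFne : ∀ S m, (F S m).Nonempty := by
    intro S m
    obtain ⟨n, hnN, hn⟩ := hN.exists_gt (m + S.card)
    -- indices killed by the selections
    set killed : Finset ℕ := (Finset.range (n + 1)).filter (fun i => ∃ a ∈ S, a n ∈ P n i)
      with hk
    have hcard : killed.card ≤ S.card := by
      have hch : ∀ i ∈ killed, ∃ a ∈ S, a n ∈ P n i := fun i hi => (Finset.mem_filter.1 hi).2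
      choose! f hf1 hf2 using hch
      apply Finset.card_le_card_of_injOn f
      · intro i hi
        exact hf1 i hi
      · intro i hi j hj hij
        by_contra hne'
        have := (Set.disjoint_left.1 (hPdisj n i j hne')) (hf2 i hi)
        apply this
        rw [hij]
        exact hf2 j hj
    have hex : ∃ i ∈ Finset.range (n + 1), i ∉ killed := by
      by_contra hcon
      push Not at hcon
      have h2 : (Finset.range (n + 1)) ⊆ killed := hcon
      have h3 := Finset.card_le_card h2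
      rw [Finset.card_range] at h3
      omega
    obtain ⟨i, hi, hik⟩ := hex
    obtain ⟨c, hc⟩ := hPne n i
    refine ⟨(n, c), hnN, by show m ≤ n; omega, ⟨i, hc⟩, ?_⟩
    intro a ha
    show c ∈ Q a n
    simp only [hQ, if_pos hnN, mem_iUnion]
    refine ⟨i, hi, ?_⟩
    have h4 : a n ∉ P n i := fun h => hik (Finset.mem_filter.2 ⟨hi, a, ha, h⟩)
    rw [if_neg h4]
    exact hc
  -- the ultrafilter
  set 𝓕 : Filter (ℕ × Cantor) := ⨅ q : Finset (ℕ → Cantor) × ℕ, 𝓟 (F q.1 q.2) with h𝓕
  have hdir : Directed (· ≥ ·) fun q : Finset (ℕ → Cantor) × ℕ => 𝓟 (F q.1 q.2) := by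
    intro q q'
    refine ⟨(q.1 ∪ q'.1, max q.2 q'.2), ?_, ?_⟩
    · apply principal_mono.2
      rintro p ⟨h1, h2, h3, h4⟩
      exact ⟨h1, (le_max_left _ _).trans h2, h3, fun a ha => h4 a (Finset.mem_union_left _ ha)⟩
    · apply principal_mono.2
      rintro p ⟨h1, h2, h3, h4⟩
      exact ⟨h1, (le_max_right _ _).trans h2, h3, fun a ha => h4 a (Finset.mem_union_right _ ha)⟩
  have hNeBot : 𝓕.NeBot := by
    apply iInf_neBot_of_directed hdir
    intro q
    rw [principal_neBot_iff]
    exact hFne q.1 q.2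
  set U : Ultrafilter (ℕ × Cantor) := Ultrafilter.of 𝓕 with hU
  have hUF : ∀ S m, F S m ∈ U := by
    intro S m
    apply Ultrafilter.of_le 𝓕
    exact mem_iInf_of_mem (S, m) (mem_principal_self _)
  -- the limit point
  set x : Itwo → Bool := fun W => decide ({p : ℕ × Cantor | p.2 ∈ W.1 p.1} ∈ U) with hx
  have hxt : ∀ W : Itwo, x W = true ↔ {p : ℕ × Cantor | p.2 ∈ W.1 p.1} ∈ U := by
    intro W; simp [hx]
  have hlim : Tendsto (fun p : ℕ × Cantor => ztwo p.1 p.2) U (𝓝 x) := by
    rw [tendsto_pi_nhds]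
    intro W
    rw [nhds_discrete, tendsto_pure]
    by_cases hW : {p : ℕ × Cantor | p.2 ∈ W.1 p.1} ∈ U
    · filter_upwards [hW] with p hp
      rw [(hxt W).2 hW, ztwo_eq_true]
      exact hp
    · have h2 := Ultrafilter.compl_mem_iff_notMem.2 hW
      filter_upwards [h2] with p hp
      have h3 : x W = false := by
        rw [← Bool.not_eq_true, hxt W]
        exact hW
      rw [h3, ← Bool.not_eq_true, ztwo_eq_true]
      exact hp
  have hxacc : ∀ a : ℕ → Cantor, ¬ AccSel x a := by
    intro a hacc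
    set W : Itwo := ⟨Q a, hQclopen a⟩ with hW
    have h2 : x W = true := by
      rw [hxt]
      filter_upwards [hUF {a} 0] with p hp
      exact hp.2.2.2 a (Finset.mem_singleton_self a)
    have h3 : {y : Itwo → Bool | y W = true} ∈ 𝓝 x := (isOpen_coord W true).mem_nhds h2
    have h4 := hacc _ h3
    apply h4
    convert Set.finite_empty
    rw [Set.eq_empty_iff_forall_notMem]
    intro n hn
    have h5 : ztwo n (a n) W = true := hn
    rw [ztwo_eq_true] at h5
    exact hQa a n h5
  refine ⟨⟨(x, fun _ => false), Or.inr hxacc⟩, ?_⟩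
  intro W hW
  -- pull back to the cube
  have hlimK : Tendsto (fun p : ℕ × Cantor => zK p.1 p.2) U
      (𝓝 (⟨(x, fun _ => false), Or.inr hxacc⟩ : Ktwo)) := by
    rw [tendsto_subtype_rng]
    exact hlim.prodMk_nhds tendsto_const_nhds
  have h2 := hlimK hW
  rw [← Nat.frequently_atTop_iff_infinite, frequently_atTop]
  intro m
  have h3 : ((fun p : ℕ × Cantor => zK p.1 p.2) ⁻¹' W) ∩ F ∅ m ∈ U := inter_mem h2 (hUF ∅ m)
  obtain ⟨⟨n, c⟩, hc1, hc2, hc3, ⟨i, hc4⟩, -⟩ := U.nonempty_of_mem h3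
  exact ⟨n, hc3, hc2, zK n c, ⟨hPV n hc2 i c hc4, ⟨c, rfl⟩⟩, hc1⟩

/-- if selections have cluster points, the space is selectively pseudocompact -/
lemma SelPseudocompact.of_cluster {X : Type u} [TopologicalSpace X]
    (h : ∀ U : ℕ → Set X, (∀ n, IsOpen (U n)) → (∀ n, (U n).Nonempty) →
      ∃ x : ℕ → X, (∀ n, x n ∈ U n) ∧ ∃ y, MapClusterPt y atTop x) : SelPseudocompact X := by
  intro U hU hne hdisj
  obtain ⟨x, hx, y, hy⟩ := h U hU hne
  refine ⟨x, hx, fun hcl => ?_⟩
  rw [mapClusterPt_iff_frequently] at hy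
  have hyr : y ∈ closure (range x) := by
    rw [mem_closure_iff_nhds]
    intro W hW
    obtain ⟨n, hn⟩ := (hy W hW).exists
    exact ⟨x n, hn, n, rfl⟩
  rw [hcl.closure_eq] at hyr
  obtain ⟨m, rfl⟩ := hyr
  have h2 := hy (U m) ((hU m).mem_nhds (hx m))
  obtain ⟨n, hn, hn'⟩ := (frequently_atTop.1 h2) (m + 1)
  exact (Set.disjoint_left.1 (hdisj m n (by omega))) hn' (hx n)

lemma exists_point_of_isOpen_two (V : Set Ktwo) (hV : IsOpen V) (hne : V.Nonempty) :
    ∃ (u : Ktwo) (I : Finset ℝ), ∀ x : Ktwo, x.1.1 = u.1.1 → (∀ j ∈ I, x.1.2 j = u.1.2 j) →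
      x ∈ V := by
  obtain ⟨u, hu⟩ := hne
  obtain ⟨V', hV', rfl⟩ := isOpen_induced_iff.1 hV
  have h1 : V' ∈ 𝓝 (u.1.1, u.1.2) := hV'.mem_nhds hu
  rw [nhds_prod_eq, mem_prod_iff] at h1
  obtain ⟨W1, hW1, W2, hW2, hW⟩ := h1
  rw [nhds_pi, Filter.mem_pi] at hW2
  obtain ⟨I, hI, t, ht, htW⟩ := hW2
  refine ⟨u, hI.toFinset, fun x hx1 hx2 => ?_⟩
  show x.1 ∈ V'
  have : x.1 = (x.1.1, x.1.2) := rfl
  rw [this]
  apply hW
  refine ⟨?_, htW ?_⟩
  · show x.1.1 ∈ W1
    rw [hx1]
    exact mem_of_mem_nhds hW1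
  · intro j hj
    show x.1.2 j ∈ t j
    rw [hx2 j (hI.mem_toFinset.2 hj)]
    exact mem_of_mem_nhds (ht j)

/-- the compact subsets of `K` given by one coordinate -/
lemma isCompact_slice (j : ℝ) : IsCompact {p : Ktwo | p.1.2 j = true} := by
  have h1 : IsClosed {p : (Itwo → Bool) × (ℝ → Bool) | p.2 j = true} := by
    have h : Continuous fun p : (Itwo → Bool) × (ℝ → Bool) => p.2 j :=
      (continuous_apply j).comp continuous_snd
    exact (isClosed_discrete {true}).preimage h
  have h2 : IsCompact {p : (Itwo → Bool) × (ℝ → Bool) | p.2 j = true} := h1.isCompact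
  rw [IsEmbedding.subtypeVal.isCompact_iff]
  convert h2
  ext p
  constructor
  · rintro ⟨q, hq, rfl⟩
    exact hq
  · intro hp
    exact ⟨⟨p, Or.inl ⟨j, hp⟩⟩, hp, rfl⟩

theorem sp_X2 : SelPseudocompact (Ktwo ⊕ OnePoint (Σ n, Atwo n)) := by
  classical
  apply SelPseudocompact.of_cluster
  intro U hU hne
  have hcs : ∀ n, CompactSpace (Atwo n) := fun n => isCompact_iff_compactSpace.1 (isCompact_Atwo n)
  -- choose supports
  have h1 : ∀ n, ∃ (u : Ktwo) (I : Finset ℝ),
      (∃ k, (Sum.inl k : Ktwo ⊕ OnePoint (Σ n, Atwo n)) ∈ U n) →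
      ∀ x : Ktwo, x.1.1 = u.1.1 → (∀ i ∈ I, x.1.2 i = u.1.2 i) →
        (Sum.inl x : Ktwo ⊕ OnePoint (Σ n, Atwo n)) ∈ U n := by
    intro n
    by_cases h : ∃ k, (Sum.inl k : Ktwo ⊕ OnePoint (Σ n, Atwo n)) ∈ U n
    · obtain ⟨u, I, h'⟩ := exists_point_of_isOpen_two (Sum.inl ⁻¹' U n)
        ((hU n).preimage continuous_inl) h
      exact ⟨u, I, fun _ => h'⟩
    · exact ⟨zK 0 (fun _ => false), ∅, fun h' => absurd h' h⟩
  choose u I hI using h1
  have hSc : (⋃ n, (I n : Set ℝ)).Countable := countable_iUnion fun n => (I n).countable_toSet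
  obtain ⟨j, hj⟩ : ∃ j, j ∉ (⋃ n, (I n : Set ℝ)) := by
    by_contra hcon
    push Not at hcon
    apply Cardinal.not_countable_real
    exact hSc.mono (fun x _ => hcon x)
  set xK : ℕ → Ktwo := fun n => ⟨((u n).1.1, Function.update (u n).1.2 j true),
    Or.inl ⟨j, by simp⟩⟩ with hxK
  have hxU : ∀ n, (∃ k, (Sum.inl k : Ktwo ⊕ OnePoint (Σ n, Atwo n)) ∈ U n) →
      (Sum.inl (xK n) : Ktwo ⊕ OnePoint (Σ n, Atwo n)) ∈ U n := by
    intro n hn
    apply hI n hn
    · rfl
    · intro i hi
      have hij : i ≠ j := by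
        rintro rfl
        exact hj (mem_iUnion.2 ⟨n, hi⟩)
      show Function.update (u n).1.2 j true i = (u n).1.2 i
      rw [Function.update_of_ne hij]
  have h2 : ∀ n, ∃ z : OnePoint (Σ n, Atwo n),
      (¬ ∃ k, (Sum.inl k : Ktwo ⊕ OnePoint (Σ n, Atwo n)) ∈ U n) → Sum.inr z ∈ U n := by
    intro n
    by_cases h : ∃ k, (Sum.inl k : Ktwo ⊕ OnePoint (Σ n, Atwo n)) ∈ U n
    · exact ⟨∞, fun h' => absurd h h'⟩
    · obtain ⟨y, hy⟩ := hne n
      match y, hy with
      | Sum.inl k, hy => exact absurd ⟨k, hy⟩ h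
      | Sum.inr z, hy => exact ⟨z, fun _ => hy⟩
  choose z hz using h2
  set x : ℕ → Ktwo ⊕ OnePoint (Σ n, Atwo n) := fun n =>
    if (∃ k, (Sum.inl k : Ktwo ⊕ OnePoint (Σ n, Atwo n)) ∈ U n) then Sum.inl (xK n)
    else Sum.inr (z n) with hx
  refine ⟨x, ?_, ?_⟩
  · intro n
    by_cases h : ∃ k, (Sum.inl k : Ktwo ⊕ OnePoint (Σ n, Atwo n)) ∈ U n
    · simp only [hx, if_pos h]
      exact hxU n h
    · simp only [hx, if_neg h]
      exact hz n h
  · set Q : Set (Ktwo ⊕ OnePoint (Σ n, Atwo n)) :=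
      (Sum.inl '' {p : Ktwo | p.1.2 j = true}) ∪ (Sum.inr '' univ) with hQ
    have hQc : IsCompact Q :=
      ((isCompact_slice j).image continuous_inl).union (isCompact_univ.image continuous_inr)
    have hxQ : ∀ n, x n ∈ Q := by
      intro n
      simp only [hx]
      split_ifs with h
      · left
        refine ⟨xK n, ?_, rfl⟩
        show Function.update (u n).1.2 j true j = true
        simp
      · right
        exact ⟨z n, mem_univ _, rfl⟩
    obtain ⟨y, -, hy⟩ := hQc (f := map x atTop) (by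
      rw [le_principal_iff, mem_map]
      exact univ_mem' hxQ)
    exact ⟨y, hy⟩

theorem not_sp_Y2 : ¬ SelPseudocompact (Glue Atwo ⊕ Unit) := by
  classical
  intro h
  obtain ⟨x, hx, hncl⟩ := h
    (fun n => Sum.inl '' (Glue.copy '' (range (Sigma.mk n) : Set (Σ n, Atwo n)))) (by
      intro n
      apply isOpenMap_inl
      apply (Glue.isOpenEmbedding_copy Atwo).isOpenMap
      exact isOpenMap_sigmaMk.isOpen_range) (by
      intro n
      exact ⟨_, _, ⟨_, ⟨⟨zK n (fun _ => false), ⟨_, rfl⟩⟩, rfl⟩, rfl⟩, rfl⟩) (by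
      intro m n hmn
      rw [Set.disjoint_left]
      rintro _ ⟨_, ⟨_, ⟨a, rfl⟩, rfl⟩, rfl⟩ ⟨_, ⟨_, ⟨b, rfl⟩, rfl⟩, hb⟩
      have h1 := Sum.inl_injective hb
      have h2 := Glue.copy.inj h1
      exact hmn (congrArg Sigma.fst h2).symm)
  apply hncl
  have h1 : ∀ n, ∃ a : Atwo n, x n = Sum.inl (Glue.copy ⟨n, a⟩) := by
    intro n
    obtain ⟨w, ⟨z, ⟨a, rfl⟩, rfl⟩, hw⟩ := hx n
    exact ⟨a, hw.symm⟩
  choose a ha using h1
  have h2 : ∀ n, ∃ c : Cantor, zK n c = (a n).1 := fun n => (a n).2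
  choose c hc using h2
  -- show that the range is closed
  rw [← isOpen_compl_iff, isOpen_iff_mem_nhds]
  intro y hy
  match y, hy with
  | Sum.inr t, hy =>
    refine mem_of_superset (isOpen_range_inr.mem_nhds ⟨t, rfl⟩) ?_
    rintro _ ⟨s, rfl⟩ ⟨n, hn⟩
    rw [ha n] at hn
    exact absurd hn (by simp)
  | Sum.inl (Glue.copy ⟨m, b⟩), hy =>
    have hop : IsOpen (Sum.inl '' (Glue.copy '' (Sigma.mk m '' ({a m}ᶜ : Set (Atwo m)))) :
        Set (Glue Atwo ⊕ Unit)) := by
      apply isOpenMap_inl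
      apply (Glue.isOpenEmbedding_copy Atwo).isOpenMap
      apply isOpenMap_sigmaMk
      exact isOpen_compl_singleton
    have hbm : b ∈ ({a m}ᶜ : Set (Atwo m)) := by
      intro hb
      have hb' : b = a m := hb
      apply hy
      exact ⟨m, by rw [ha m, hb']⟩
    refine mem_of_superset (hop.mem_nhds ⟨_, ⟨_, ⟨b, hbm, rfl⟩, rfl⟩, rfl⟩) ?_
    rintro _ ⟨_, ⟨_, ⟨b', hb', rfl⟩, rfl⟩, rfl⟩ ⟨n, hn⟩
    rw [ha n] at hn
    have h3 := Glue.copy.inj (Sum.inl_injective hn)
    rw [Sigma.mk.injEq] at h3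
    obtain ⟨h4, h5⟩ := h3
    subst h4
    exact hb' (eq_of_heq h5).symm
  | Sum.inl (Glue.base q), hy =>
    -- a neighbourhood of `q` in `K` that contains only finitely many points of the selection
    have h3 : ∃ W ∈ 𝓝 q, {n | (a n).1 ∈ W}.Finite := by
      by_cases hq : ∃ j, q.1.2 j = true
      · obtain ⟨j, hj⟩ := hq
        refine ⟨{p : Ktwo | p.1.2 j = true}, ?_, ?_⟩
        · have h : Continuous fun p : Ktwo => p.1.2 j :=
            (continuous_apply j).comp (continuous_snd.comp continuous_subtype_val)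
          exact ((isOpen_discrete {true}).preimage h).mem_nhds hj
        · convert Set.finite_empty
          rw [Set.eq_empty_iff_forall_notMem]
          intro n hn
          have hn' : (a n).1.1.2 j = true := hn
          rw [← hc n] at hn'
          exact absurd hn' (by simp [zK])
      · have hq2 : ¬ AccSel q.1.1 c := by
          rcases q.2 with h | h
          · exact absurd h hq
          · exact h c
        unfold AccSel at hq2
        push Not at hq2
        obtain ⟨W, hW, hWf⟩ := hq2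
        refine ⟨{p : Ktwo | p.1.1 ∈ W}, ?_, ?_⟩
        · have h : Continuous fun p : Ktwo => p.1.1 := continuous_fst.comp continuous_subtype_val
          exact h.continuousAt.preimage_mem_nhds hW
        · refine hWf.subset ?_
          intro n hn
          have hn' : (a n).1.1.1 ∈ W := hn
          rw [← hc n] at hn'
          exact hn'
    obtain ⟨W, hW, hWf⟩ := h3
    have h4 := Glue.nhds_base Atwo q hW hWf.toFinset
    have h5 : (Sum.inl '' {x : Glue Atwo | Glue.pr Atwo x ∈ W ∧ ∀ n ∈ hWf.toFinset,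
        (Glue.emb Atwo x).2 n = false} : Set (Glue Atwo ⊕ Unit)) ∈ 𝓝 (Sum.inl (Glue.base q)) :=
      isOpenMap_inl.image_mem_nhds h4
    refine mem_of_superset h5 ?_
    rintro _ ⟨w, ⟨hw1, hw2⟩, rfl⟩ ⟨n, hn⟩
    rw [ha n] at hn
    have h6 : Glue.copy ⟨n, a n⟩ = w := Sum.inl_injective hn
    rw [← h6] at hw1 hw2
    have h7 : n ∈ hWf.toFinset := by
      rw [Set.Finite.mem_toFinset]
      exact hw1
    have h8 := hw2 n h7
    have h9 : (Glue.emb Atwo (Glue.copy ⟨n, a n⟩)).2 n = true :=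
      (Glue.level_iff_copy Atwo _ _).2 rfl
    rw [h9] at h8
    exact absurd h8 (by simp)

theorem main_Q2 : ∃ (X Y : Type) (_ : TopologicalSpace X) (_ : TopologicalSpace Y),
    T35Space X ∧ T35Space Y ∧ SelPseudocompact X ∧ ¬ SelPseudocompact Y ∧
    ∀ (G : Type u) [CommGroup G] [TopologicalSpace G] [IsTopologicalGroup G],
      Dense (Cp X G : Set (X → G)) ∧ Dense (Cp Y G : Set (Y → G)) ∧ GEquivalent G X Y := by
  have hsepK : SepBool Ktwo :=
    ((SepBool.pi Itwo).prod (SepBool.pi ℝ)).of_injective continuous_subtype_val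
      Subtype.val_injective
  have hT : T35Space (OnePoint (Σ n, Atwo n)) := t35_onePoint Atwo isCompact_Atwo
  have hG : T35Space (Glue Atwo) := t35_glue Atwo
  have hsing : ∀ n, CompactSpace (Atwo n) := fun n =>
    isCompact_iff_compactSpace.1 (isCompact_Atwo n)
  refine ⟨Ktwo ⊕ OnePoint (Σ n, Atwo n), Glue Atwo ⊕ Unit, inferInstance, inferInstance,
    t35_sum, t35_sum, sp_X2, not_sp_Y2, ?_⟩
  intro G _ _ _
  refine ⟨?_, ?_, gEquivalent_glue isCompact_Atwo accumulates_Atwo⟩
  · apply SepBool.dense_Cp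
    apply hsepK.sum
    apply SepBool.onePoint
    intro n
    exact hsepK.of_injective continuous_subtype_val Subtype.val_injective
  · apply SepBool.dense_Cp
    apply SepBool.sum _ SepBool.unit
    exact (hsepK.prod (SepBool.pi ℕ)).of_injective (Glue.continuous_emb Atwo)
      (Glue.emb_injective Atwo)

end Pool.Agent.Work.MP_c4a8f9_gt
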