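import Pool.Agent.Work.MP_c4a8f9_gt.Equiv

/-!
# Separation properties and density of `C_p(X, G)`
-/

set_option autoImplicit false
set_option linter.unusedSectionVars false

open Filter Topology Set OnePoint

namespace Pool.Agent.Work.MP_c4a8f9_gt

universe u v w

/-- points are separated by continuous maps to the two point discrete space. -/
def SepBool (X : Type u) [TopologicalSpace X] : Prop :=
  ∀ x y : X, x ≠ y → ∃ f : X → Bool, Continuous f ∧ f x ≠ f y

lemma SepBool.of_injective {X : Type u} {Y : Type v} [TopologicalSpace X] [TopologicalSpace Y]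
    (hY : SepBool Y) {f : X → Y} (hf : Continuous f) (hi : Function.Injective f) : SepBool X := by
  intro x y hxy
  obtain ⟨g, hg, hgxy⟩ := hY (f x) (f y) (hi.ne hxy)
  exact ⟨g ∘ f, hg.comp hf, hgxy⟩

lemma SepBool.pi (ι : Type u) : SepBool (ι → Bool) := by
  intro x y hxy
  obtain ⟨i, hi⟩ := Function.ne_iff.1 hxy
  exact ⟨fun z => z i, continuous_apply i, hi⟩

lemma SepBool.prod {X : Type u} {Y : Type v} [TopologicalSpace X] [TopologicalSpace Y]
    (hX : SepBool X) (hY : SepBool Y) : SepBool (X × Y) := by
  rintro ⟨x, y⟩ ⟨x', y'⟩ h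
  by_cases hx : x = x'
  · have hy : y ≠ y' := by
      rintro rfl
      exact h (by rw [hx])
    obtain ⟨f, hf, hf'⟩ := hY y y' hy
    exact ⟨fun p => f p.2, hf.comp continuous_snd, hf'⟩
  · obtain ⟨f, hf, hf'⟩ := hX x x' hx
    exact ⟨fun p => f p.1, hf.comp continuous_fst, hf'⟩

lemma SepBool.sum {X : Type u} {Y : Type v} [TopologicalSpace X] [TopologicalSpace Y]
    (hX : SepBool X) (hY : SepBool Y) : SepBool (X ⊕ Y) := by
  have hb : Continuous (Sum.elim (fun _ => true) (fun _ => false) : X ⊕ Y → Bool) := by
    rw [continuous_sum_dom]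
    exact ⟨continuous_const, continuous_const⟩
  rintro (x | x) (y | y) h
  · obtain ⟨f, hf, hf'⟩ := hX x y (fun e => h (by rw [e]))
    refine ⟨Sum.elim f (fun _ => true), ?_, hf'⟩
    rw [continuous_sum_dom]
    exact ⟨hf, continuous_const⟩
  · exact ⟨_, hb, by simp⟩
  · exact ⟨_, hb, by simp⟩
  · obtain ⟨f, hf, hf'⟩ := hY x y (fun e => h (by rw [e]))
    refine ⟨Sum.elim (fun _ => true) f, ?_, hf'⟩
    rw [continuous_sum_dom]
    exact ⟨continuous_const, hf⟩

lemma SepBool.unit : SepBool Unit := fun _ _ h => absurd rfl h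

lemma SepBool.onePoint {X : ℕ → Type u} [∀ n, TopologicalSpace (X n)] [∀ n, CompactSpace (X n)]
    (hX : ∀ n, SepBool (X n)) : SepBool (OnePoint (Σ n, X n)) := by
  classical
  -- extension of a function on one level by `false`
  have ext : ∀ (n : ℕ) (f : X n → Bool), Continuous f →
      ∃ F : OnePoint (Σ n, X n) → Bool, Continuous F ∧ F ∞ = false ∧
        (∀ a : X n, F ((⟨n, a⟩ : Σ n, X n) : OnePoint (Σ n, X n)) = f a) ∧
        (∀ m, m ≠ n → ∀ a : X m, F ((⟨m, a⟩ : Σ n, X n) : OnePoint (Σ n, X n)) = false) := by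
    intro n f hf
    set S : Set (OnePoint (Σ n, X n)) :=
      (fun z : Σ n, X n => (z : OnePoint (Σ n, X n))) '' (Sigma.mk n '' (f ⁻¹' {true})) with hS
    have hclop : IsClopen (f ⁻¹' {true}) := (isClopen_discrete {true}).preimage hf
    have hSc : IsClosed S := by
      rw [hS, OnePoint.isClosed_image_coe]
      refine ⟨?_, ?_⟩
      · exact isClosedMap_sigmaMk _ hclop.1
      · exact (hclop.1.isCompact).image continuous_sigmaMk
    have hSo : IsOpen S := by
      rw [hS, OnePoint.isOpen_image_coe]
      exact isOpenMap_sigmaMk _ hclop.2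
    refine ⟨fun z => decide (z ∈ S), ?_, ?_, ?_, ?_⟩
    · rw [continuous_bool_rng true]
      have : (fun z => decide (z ∈ S)) ⁻¹' {true} = S := by
        ext z; simp
      rw [this]
      exact ⟨hSc, hSo⟩
    · simp [hS]
    · intro a
      have : (((⟨n, a⟩ : Σ n, X n) : OnePoint (Σ n, X n)) ∈ S) ↔ f a = true := by
        rw [hS]
        constructor
        · rintro ⟨z, ⟨b, hb, rfl⟩, hz⟩
          have := OnePoint.coe_injective hz
          rw [Sigma.mk.injEq] at this
          obtain ⟨-, h2⟩ := this
          have h3 := eq_of_heq h2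
          rw [← h3]; exact hb
        · intro h
          exact ⟨_, ⟨a, h, rfl⟩, rfl⟩
      by_cases h : f a = true
      · rw [h]; simpa using this.2 h
      · have h' : f a = false := by simpa using h
        rw [h']
        simpa using fun h2 => h (this.1 h2)
    · intro m hm a
      simp only [decide_eq_false_iff_not]
      rintro ⟨z, ⟨b, hb, rfl⟩, hz⟩
      have := OnePoint.coe_injective hz
      exact hm (congrArg Sigma.fst this).symm
  intro x y hxy
  induction x using OnePoint.rec with
  | infty =>
    induction y using OnePoint.rec with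
    | infty => exact absurd rfl hxy
    | coe y =>
      obtain ⟨F, hF, hF1, hF2, -⟩ := ext y.1 (fun _ => true) continuous_const
      refine ⟨F, hF, ?_⟩
      rw [hF1, show y = ⟨y.1, y.2⟩ from rfl, hF2]
      simp
  | coe x =>
    induction y using OnePoint.rec with
    | infty =>
      obtain ⟨F, hF, hF1, hF2, -⟩ := ext x.1 (fun _ => true) continuous_const
      refine ⟨F, hF, ?_⟩
      rw [hF1, show x = ⟨x.1, x.2⟩ from rfl, hF2]
      simp
    | coe y =>
      obtain ⟨n, a⟩ := x
      obtain ⟨m, b⟩ := y
      by_cases hmn : m = n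
      · subst hmn
        have hab : a ≠ b := by
          rintro rfl
          exact hxy rfl
        obtain ⟨f, hf, hf'⟩ := hX m a b hab
        obtain ⟨F, hF, -, hF2, -⟩ := ext m f hf
        refine ⟨F, hF, ?_⟩
        rw [hF2, hF2]
        exact hf'
      · obtain ⟨F, hF, -, hF2, hF3⟩ := ext n (fun _ => true) continuous_const
        refine ⟨F, hF, ?_⟩
        rw [hF2, hF3 m hmn]
        simp

lemma SepBool.exists_bool {X : Type u} [TopologicalSpace X] (hX : SepBool X) (a : X)
    (S : Finset X) (ha : a ∉ S) :
    ∃ f : X → Bool, Continuous f ∧ f a = true ∧ ∀ s ∈ S, f s = false := by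
  classical
  induction S using Finset.induction_on with
  | empty => exact ⟨fun _ => true, continuous_const, rfl, by simp⟩
  | insert b S hb ih =>
    rw [Finset.mem_insert, not_or] at ha
    obtain ⟨f, hf, hfa, hfS⟩ := ih ha.2
    obtain ⟨g, hg, hgab⟩ := hX a b ha.1
    refine ⟨fun x => f x && (g x == g a), ?_, ?_, ?_⟩
    · have h2 : Continuous fun p : Bool × Bool => p.1 && (p.2 == g a) :=
        continuous_of_discreteTopology
      exact h2.comp (hf.prodMk hg)
    · simp [hfa]
    · intro s hs
      rcases Finset.mem_insert.1 hs with rfl | hs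
      · have : (g s == g a) = false := by
          simpa using fun h => hgab h.symm
        simp [this]
      · simp [hfS s hs]

lemma SepBool.exists_continuous {X : Type u} [TopologicalSpace X] (hX : SepBool X)
    {G : Type v} [TopologicalSpace G] [Nonempty G] (f : X → G) (S : Finset X) :
    ∃ g : X → G, Continuous g ∧ ∀ s ∈ S, g s = f s := by
  classical
  induction S using Finset.induction_on with
  | empty => exact ⟨fun _ => Classical.arbitrary G, continuous_const, by simp⟩
  | insert b S hb ih =>
    obtain ⟨g, hg, hgS⟩ := ih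
    obtain ⟨p, hp, hpb, hpS⟩ := hX.exists_bool b S hb
    refine ⟨fun x => if p x = true then f b else g x, ?_, ?_⟩
    · have hclop : IsClopen {x | p x = true} := (isClopen_discrete {true}).preimage hp
      apply Continuous.if
      · intro a ha
        rw [hclop.frontier_eq] at ha
        exact absurd ha (by simp)
      · exact continuous_const
      · exact hg
    · intro s hs
      rcases Finset.mem_insert.1 hs with rfl | hs
      · simp [hpb]
      · simp [hpS s hs, hgS s hs]

/-- Density of `C_p(X, G)` in `G ^ X`. -/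
theorem SepBool.dense_Cp {X : Type u} [TopologicalSpace X] (hX : SepBool X)
    (G : Type v) [Group G] [TopologicalSpace G] [IsTopologicalGroup G] :
    Dense (Cp X G : Set (X → G)) := by
  intro f
  rw [mem_closure_iff]
  intro O hO hfO
  rw [isOpen_pi_iff] at hO
  obtain ⟨I, u, hu, hI⟩ := hO f hfO
  obtain ⟨g, hg, hgI⟩ := hX.exists_continuous f I
  refine ⟨g, hI ?_, hg⟩
  intro i hi
  rw [hgI i hi]
  exact (hu i hi).2

/-- disjoint sums of completely regular Hausdorff spaces -/
lemma t35_sum {X : Type u} {Y : Type v} [TopologicalSpace X] [TopologicalSpace Y]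
    [T35Space X] [T35Space Y] : T35Space (X ⊕ Y) := by
  have : CompletelyRegularSpace (X ⊕ Y) := by
    constructor
    intro x S hS hx
    match x, hx with
    | Sum.inl x, hx =>
      obtain ⟨f, hf, hfx, hfS⟩ := CompletelyRegularSpace.completely_regular x
        (Sum.inl ⁻¹' S) (hS.preimage continuous_inl) hx
      refine ⟨Sum.elim f (fun _ => 1), ?_, hfx, ?_⟩
      · rw [continuous_sum_dom]
        exact ⟨hf, continuous_const⟩
      · rintro (y | y) hy
        · exact hfS hy
        · rfl
    | Sum.inr x, hx =>
      obtain ⟨f, hf, hfx, hfS⟩ := CompletelyRegularSpace.completely_regular x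
        (Sum.inr ⁻¹' S) (hS.preimage continuous_inr) hx
      refine ⟨Sum.elim (fun _ => 1) f, ?_, hfx, ?_⟩
      · rw [continuous_sum_dom]
        exact ⟨continuous_const, hf⟩
      · rintro (y | y) hy
        · rfl
        · exact hfS hy
  exact { }

lemma t35_glue {K : Type u} [TopologicalSpace K] [T35Space K] (A : ℕ → Set K) :
    T35Space (Glue A) := (Glue.isEmbedding A).t35Space

lemma t35_onePoint {K : Type u} [TopologicalSpace K] [T2Space K] (A : ℕ → Set K)
    (hc : ∀ n, IsCompact (A n)) : T35Space (OnePoint (Σ n, A n)) := by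
  have h1 : ∀ n, CompactSpace (A n) := fun n => isCompact_iff_compactSpace.1 (hc n)
  have h2 : WeaklyLocallyCompactSpace (Σ n, A n) := by
    constructor
    rintro ⟨n, a⟩
    refine ⟨range (Sigma.mk n), isCompact_range continuous_sigmaMk, ?_⟩
    exact (isOpenMap_sigmaMk.isOpen_range).mem_nhds ⟨a, rfl⟩
  infer_instance

end Pool.Agent.Work.MP_c4a8f9_gt
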